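import Pool.Agent.W442.SN.Base
import Pool.Agent.W308.SV.Loc

/-!
# The associated graded ring of the localization at the origin
-/

open MvPolynomial

namespace Pool.Agent.W99.SN.Gr

open Pool.Agent.W442.SV Pool.Agent.W442.SN Pool.Agent.W308.SV

section rees

variable {R : Type} [CommRing R] (m : Ideal R)

/-- the ideal `⊕ m^(i+1) t^i` -/
def K1 : Ideal (reesAlgebra m) where
  carrier := {x | ∀ i, (x : Polynomial R).coeff i ∈ m ^ (i + 1)}
  zero_mem' := by intro i; simp
  add_mem' := by
    intro a b ha hb i
    have := Ideal.add_mem _ (ha i) (hb i)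
    simpa using this
  smul_mem' := by
    intro c x hx i
    have e : ((c • x : reesAlgebra m) : Polynomial R) = (c : Polynomial R) * (x : Polynomial R) :=
      rfl
    rw [e, Polynomial.coeff_mul]
    apply Ideal.sum_mem
    intro p hp
    have hp' : p.1 + p.2 = i := by simpa using hp
    have h1 : (c : Polynomial R).coeff p.1 ∈ m ^ p.1 := (mem_reesAlgebra_iff m _).1 c.2 p.1
    have h2 := Ideal.mul_mem_mul h1 (hx p.2)
    rw [← pow_add] at h2
    rw [show i + 1 = p.1 + (p.2 + 1) by omega]
    exact h2

theorem mem_K1 (x : reesAlgebra m) : x ∈ K1 m ↔ ∀ i, (x : Polynomial R).coeff i ∈ m ^ (i + 1) :=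
  Iff.rfl

theorem map_le : m.map (algebraMap R (reesAlgebra m)) ≤ K1 m := by
  rw [Ideal.map_le_iff_le_comap]
  intro a ha
  rw [Ideal.mem_comap, mem_K1]
  intro i
  have e : ((algebraMap R (reesAlgebra m) a : reesAlgebra m) : Polynomial R) = Polynomial.C a := rfl
  rw [e, Polynomial.coeff_C]
  split_ifs with h
  · subst h; simpa using ha
  · exact Ideal.zero_mem _

theorem mono_mem (i : ℕ) (b : R) (hb : b ∈ m ^ (i + 1)) :
    ∃ h : Polynomial.monomial i b ∈ reesAlgebra m,
      (⟨Polynomial.monomial i b, h⟩ : reesAlgebra m) ∈ m.map (algebraMap R (reesAlgebra m)) := by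
  rw [pow_succ'] at hb
  refine Submodule.mul_induction_on hb ?_ ?_
  · intro b1 h1 b2 h2
    have h3 : Polynomial.monomial i b2 ∈ reesAlgebra m := reesAlgebra.monomial_mem.2 h2
    have e : Polynomial.monomial i (b1 * b2) = Polynomial.C b1 * Polynomial.monomial i b2 := by
      rw [Polynomial.C_mul_monomial]
    have e2 : Polynomial.C b1 = ((algebraMap R (reesAlgebra m) b1 : reesAlgebra m) :
      Polynomial R) := rfl
    have h4 : Polynomial.monomial i (b1 * b2) ∈ reesAlgebra m := by
      rw [e, e2]
      exact Subalgebra.mul_mem _ (algebraMap R (reesAlgebra m) b1).2 h3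
    refine ⟨h4, ?_⟩
    have e3 : (⟨Polynomial.monomial i (b1 * b2), h4⟩ : reesAlgebra m) =
        algebraMap R (reesAlgebra m) b1 * ⟨Polynomial.monomial i b2, h3⟩ := by
      apply Subtype.ext
      exact e
    rw [e3]
    exact Ideal.mul_mem_right _ _ (Ideal.mem_map_of_mem _ h1)
  · rintro x y ⟨hx, hx'⟩ ⟨hy, hy'⟩
    have h4 : Polynomial.monomial i (x + y) ∈ reesAlgebra m := by
      rw [map_add]; exact Subalgebra.add_mem _ hx hy
    refine ⟨h4, ?_⟩
    have e3 : (⟨Polynomial.monomial i (x + y), h4⟩ : reesAlgebra m) =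
        ⟨Polynomial.monomial i x, hx⟩ + ⟨Polynomial.monomial i y, hy⟩ := by
      apply Subtype.ext
      change Polynomial.monomial i (x + y) = Polynomial.monomial i x + Polynomial.monomial i y
      rw [map_add]
    rw [e3]
    exact Ideal.add_mem _ hx' hy'

theorem K1_le : K1 m ≤ m.map (algebraMap R (reesAlgebra m)) := by
  intro x hx
  rw [mem_K1] at hx
  choose h1 h2 using fun i => mono_mem m i _ (hx i)
  have e : x = ∑ i ∈ (x : Polynomial R).support,
      (⟨Polynomial.monomial i ((x : Polynomial R).coeff i), h1 i⟩ : reesAlgebra m) := by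
    apply Subtype.ext
    rw [AddSubmonoidClass.coe_finsetSum]
    exact (x : Polynomial R).as_sum_support
  rw [e]
  exact Ideal.sum_mem _ fun i _ => h2 i

theorem K1_eq : m.map (algebraMap R (reesAlgebra m)) = K1 m :=
  le_antisymm (map_le m) (K1_le m)

end rees

section main

variable {σ : Type} (I : Ideal (MvPolynomial σ ℂ))

theorem locMax_eq : locMax I = (originIdeal σ).map (phi I) := rfl

/-- the map to polynomials over the localization -/
noncomputable def T0 : MvPolynomial σ ℂ →+* Polynomial (Loc I) :=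
  eval₂Hom ((Polynomial.C).comp ((phi I).comp C))
    (fun j => Polynomial.C (phi I (X j)) * Polynomial.X)

theorem T0_mono (s : σ →₀ ℕ) (c : ℂ) :
    T0 I (monomial s c) = Polynomial.monomial s.degree (phi I (monomial s c)) := by
  unfold T0
  rw [coe_eval₂Hom, eval₂_monomial, monomial_eq, map_mul, RingHom.comp_apply, RingHom.comp_apply]
  rw [← Polynomial.C_mul_monomial]
  congr 1
  unfold Finsupp.prod
  rw [map_prod]
  have e : ∀ j ∈ s.support, (Polynomial.C (phi I (X j)) * Polynomial.X) ^ s j =
      Polynomial.monomial (s j) (phi I (X j ^ s j)) := by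
    intro j _
    rw [mul_pow, ← Polynomial.C_pow, ← map_pow, Polynomial.C_mul_X_pow_eq_monomial]
  rw [Finset.prod_congr rfl e, Finsupp.degree_apply]
  generalize s.support = t
  classical
  induction t using Finset.induction_on with
  | empty => simp
  | insert a t ha ih =>
    rw [Finset.prod_insert ha, Finset.prod_insert ha, ih, Polynomial.monomial_mul_monomial]
    congr 1
    rw [Finset.sum_insert ha]

theorem T0_coeff (f : MvPolynomial σ ℂ) (i : ℕ) :
    (T0 I f).coeff i = phi I (homogeneousComponent i f) := by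
  induction f using MvPolynomial.induction_on' with
  | monomial s c =>
    rw [T0_mono, Polynomial.coeff_monomial]
    split_ifs with h
    · rw [homogeneousComponent_of_mem (isHomogeneous_monomial c h), if_pos rfl]
    · rw [homogeneousComponent_of_mem (isHomogeneous_monomial c rfl), if_neg (Ne.symm h), map_zero]
  | add p q hp hq =>
    rw [map_add, Polynomial.coeff_add, hp, hq, map_add, map_add]

theorem T0_mem (f : MvPolynomial σ ℂ) : T0 I f ∈ reesAlgebra (locMax I) := by
  rw [mem_reesAlgebra_iff]
  intro i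
  rw [T0_coeff]
  exact phi_mem_pow I i (homog_mem (homogeneousComponent_isHomogeneous i f))

/-- the map to the Rees algebra -/
noncomputable def T1 : MvPolynomial σ ℂ →+* reesAlgebra (locMax I) :=
  (T0 I).codRestrict (reesAlgebra (locMax I)) (T0_mem I)

theorem T1_coeff (f : MvPolynomial σ ℂ) (i : ℕ) :
    ((T1 I f : reesAlgebra (locMax I)) : Polynomial (Loc I)).coeff i =
      phi I (homogeneousComponent i f) := T0_coeff I f i


/-- the map to the associated graded ring -/
noncomputable def T2 : MvPolynomial σ ℂ →+* GrRing (locMax I) :=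
  (Ideal.Quotient.mk ((locMax I).map (algebraMap (Loc I) (reesAlgebra (locMax I))))).comp (T1 I)

theorem init_iff (i : ℕ) (f : MvPolynomial σ ℂ) (hf : f.IsHomogeneous i) :
    phi I f ∈ (originIdeal σ).map (phi I) ^ (i + 1) ↔ Init I i f := by
  constructor
  · intro h
    obtain ⟨x, hx, s, hs, h⟩ := phi_mem_exists I (i + 1) f h
    have hs0 : coeff 0 s ≠ 0 := fun h0 => hs ((mem_origin s).2 h0)
    refine ⟨hf, C (coeff 0 s)⁻¹ * ((s - C (coeff 0 s)) * f - x), ?_, ?_⟩
    · apply Ideal.mul_mem_left
      apply Ideal.sub_mem _ _ hx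
      rw [pow_succ']
      apply Ideal.mul_mem_mul _ (homog_mem hf)
      rw [mem_origin, coeff_sub]
      simp
    · have e : f + C (coeff 0 s)⁻¹ * ((s - C (coeff 0 s)) * f - x) =
          C (coeff 0 s)⁻¹ * (s * f - x) := by
        have h1 : C (coeff 0 s)⁻¹ * C (coeff 0 s) = (1 : MvPolynomial σ ℂ) := by
          rw [← C_mul, inv_mul_cancel₀ hs0, C_1]
        linear_combination (-f) * h1
      rw [e]
      exact Ideal.mul_mem_left _ _ h
  · rintro ⟨-, g, hg, h⟩
    have e : phi I f = - phi I g := by
      have := phi_of_mem I h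
      rw [map_add] at this
      exact eq_neg_of_add_eq_zero_left this
    rw [e, neg_mem_iff]
    exact phi_mem_pow I _ hg

theorem T2_zero (f : MvPolynomial σ ℂ) : T2 I f = 0 ↔ ∀ i, Init I i (homogeneousComponent i f) := by
  unfold T2
  rw [RingHom.comp_apply, Ideal.Quotient.eq_zero_iff_mem, K1_eq, mem_K1]
  refine forall_congr' fun i => ?_
  rw [T1_coeff, ← init_iff I i _ (homogeneousComponent_isHomogeneous i f)]
  rfl

theorem ker_T2 : RingHom.ker (T2 I) = initIdeal I := by
  apply le_antisymm
  · intro f hf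
    rw [RingHom.mem_ker, T2_zero] at hf
    rw [← sum_homogeneousComponent f]
    apply Ideal.sum_mem
    intro i _
    exact Ideal.subset_span ⟨i, hf i⟩
  · unfold initIdeal
    rw [Ideal.span_le]
    rintro f ⟨i, hf⟩
    change f ∈ RingHom.ker (T2 I)
    rw [RingHom.mem_ker, T2_zero]
    intro j
    rw [homogeneousComponent_of_mem hf.1]
    split_ifs with h
    · rw [h]; exact hf
    · exact ⟨isHomogeneous_zero _ _ _, 0, Ideal.zero_mem _, by simp⟩

theorem T2_surj : Function.Surjective (T2 I) := by
  intro z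
  obtain ⟨x, rfl⟩ := Ideal.Quotient.mk_surjective z
  have h : ∀ i, (x : Polynomial (Loc I)).coeff i ∈ (originIdeal σ).map (phi I) ^ i := fun i =>
    (mem_reesAlgebra_iff _ _).1 x.2 i
  choose f hf hf2 using fun i => surj_aux I i _ (h i)
  refine ⟨∑ i ∈ (x : Polynomial (Loc I)).support, f i, ?_⟩
  unfold T2
  rw [RingHom.comp_apply]
  symm
  rw [Ideal.Quotient.eq, K1_eq, mem_K1]
  intro i
  have e : ((x - T1 I (∑ i ∈ (x : Polynomial (Loc I)).support, f i) : reesAlgebra (locMax I)) :
      Polynomial (Loc I)).coeff i = (x : Polynomial (Loc I)).coeff i -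
        phi I (homogeneousComponent i (∑ i ∈ (x : Polynomial (Loc I)).support, f i)) := by
    rw [← T1_coeff]
    simp
  rw [e, map_sum]
  have e2 : ∑ j ∈ (x : Polynomial (Loc I)).support, homogeneousComponent i (f j) =
      if i ∈ (x : Polynomial (Loc I)).support then f i else 0 := by
    rw [← Finset.sum_ite_eq]
    apply Finset.sum_congr rfl
    intro j _
    rw [homogeneousComponent_of_mem (hf j)]
  rw [e2]
  split_ifs with h1
  · exact hf2 i
  · rw [Polynomial.notMem_support_iff] at h1
    rw [h1, map_zero, sub_zero]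
    exact Ideal.zero_mem _

end main

theorem main : S_gr := by
  intro σ _ _ I _
  refine ⟨?_⟩
  exact (RingHom.quotientKerEquivOfSurjective (T2_surj I)).symm.trans
    (Ideal.quotEquivOfEq (ker_T2 I))

end Pool.Agent.W99.SN.Gr
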